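import Pool.Agent.Lib_MP_2711ad_nt.Defs

/-!
# The mean value of the product of `1 + 1/p` over the prime factors
-/

set_option autoImplicit false

namespace Pool.Agent.MPab8420

open Finset Filter Pool.Agent.MP2711

theorem SS_le_div {h : ℕ} (hh : h ≠ 0) : SS h ≤ ∑ d ∈ h.divisors, (1 : ℝ) / d := by
  classical
  unfold SS
  rw [Finset.prod_one_add]
  have e : ∀ S ∈ h.primeFactors.powerset,
      ∏ p ∈ S, (1 / (p : ℝ)) = 1 / ((∏ p ∈ S, p : ℕ) : ℝ) := by
    intro S _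
    rw [Finset.prod_div_distrib, Finset.prod_const_one, Nat.cast_prod]
  rw [Finset.sum_congr rfl e]
  have hinj : Set.InjOn (fun S : Finset ℕ => ∏ p ∈ S, p)
      (h.primeFactors.powerset : Set (Finset ℕ)) := by
    intro S hS T hT hST
    rw [mem_coe, mem_powerset] at hS hT
    have h1 := Nat.primeFactors_prod (s := S) (fun p hp => Nat.prime_of_mem_primeFactors (hS hp))
    have h2 := Nat.primeFactors_prod (s := T) (fun p hp => Nat.prime_of_mem_primeFactors (hT hp))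
    simp only at hST
    rw [← h1, ← h2, hST]
  have h3 : ∑ S ∈ h.primeFactors.powerset, 1 / ((∏ p ∈ S, p : ℕ) : ℝ) =
      ∑ d ∈ h.primeFactors.powerset.image (fun S : Finset ℕ => ∏ p ∈ S, p), (1 : ℝ) / d := by
    rw [Finset.sum_image hinj]
  rw [h3]
  refine Finset.sum_le_sum_of_subset_of_nonneg ?_ fun _ _ _ => by positivity
  intro d hd
  obtain ⟨S, hS, rfl⟩ := mem_image.1 hd
  rw [Nat.mem_divisors]
  refine ⟨?_, hh⟩
  rw [mem_powerset] at hS
  exact (Finset.prod_dvd_prod_of_subset _ _ _ hS).trans (Nat.prod_primeFactors_dvd h)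

theorem sum_SS (L : ℕ) : ∑ h ∈ Ico 1 L, SS h ≤ 2 * L := by
  classical
  have h1 : ∑ h ∈ Ico 1 L, SS h ≤ ∑ h ∈ Ioc 0 L, ∑ d ∈ Ioc 0 L, if d ∣ h then (1 : ℝ) / d else 0 := by
    have hs : Ico 1 L ⊆ Ioc 0 L := by
      intro x hx
      rw [mem_Ico] at hx
      rw [mem_Ioc]
      omega
    refine le_trans (Finset.sum_le_sum (g := fun h : ℕ => ∑ d ∈ Ioc 0 L, if d ∣ h then (1 : ℝ) / d else 0)
      fun h hh => ?_) ?_
    · have hh' := hs hh
      rw [mem_Ioc] at hh'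
      refine (SS_le_div (by omega)).trans ?_
      rw [← Finset.sum_filter]
      refine Finset.sum_le_sum_of_subset_of_nonneg ?_ fun _ _ _ => by positivity
      intro d hd
      rw [Nat.mem_divisors] at hd
      rw [mem_filter, mem_Ioc]
      exact ⟨⟨Nat.pos_of_dvd_of_pos hd.1 (by omega), (Nat.le_of_dvd (by omega) hd.1).trans hh'.2⟩, hd.1⟩
    · refine Finset.sum_le_sum_of_subset_of_nonneg hs fun _ _ _ => Finset.sum_nonneg fun _ _ => ?_
      split_ifs <;> positivity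
  refine h1.trans ?_
  rw [Finset.sum_comm]
  have h2 : ∀ d ∈ Ioc 0 L, (∑ h ∈ Ioc 0 L, if d ∣ h then (1 : ℝ) / d else 0) ≤
      L * (((d : ℝ) ^ 2)⁻¹) := by
    intro d hd
    rw [mem_Ioc] at hd
    rw [← Finset.sum_filter, Finset.sum_const, Nat.Ioc_filter_dvd_card_eq_div, nsmul_eq_mul]
    have hd0 : (0 : ℝ) < d := by exact_mod_cast hd.1
    have h3 : ((L / d : ℕ) : ℝ) ≤ (L : ℝ) / d := Nat.cast_div_le
    calc ((L / d : ℕ) : ℝ) * (1 / d) ≤ (L : ℝ) / d * (1 / d) :=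
          mul_le_mul_of_nonneg_right h3 (by positivity)
      _ = L * (((d : ℝ) ^ 2)⁻¹) := by
          field_simp
  refine (Finset.sum_le_sum h2).trans ?_
  rw [← Finset.mul_sum]
  have h4 : ∑ d ∈ Ioc 0 L, (((d : ℝ) ^ 2)⁻¹) ≤ 2 := by
    have h5 := sum_Ioo_inv_sq_le (α := ℝ) 0 (L + 1)
    have h6 : Ioo 0 (L + 1) = Ioc 0 L := by
      ext x
      simp only [mem_Ioo, mem_Ioc]
      omega
    rw [h6] at h5
    norm_num at h5 ⊢
    exact h5
  have hL : (0 : ℝ) ≤ L := Nat.cast_nonneg _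
  nlinarith

end Pool.Agent.MPab8420
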