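import Pool.Agent.Lib_MP_2711ad_nt.Pairs
import Pool.Agent.Lib_MP_2711ad_nt.Bset
import Pool.Agent.Lib_MP_ab8420_nt.SSum
import Pool.Agent.Lib_MP_f55cd4.MertC

/-!
# Products of two primes as values of the prime counting function at multiples of all small numbers
-/

set_option autoImplicit false

namespace Pool.Agent.MPab8420

open Finset Filter Pool.Agent.MP2711

/-- the `m`-th prime, for `m ≥ 1` -/
noncomputable def pr (m : ℕ) : ℕ := Nat.nth Nat.Prime (m - 1)

theorem pr_prime (m : ℕ) : (pr m).Prime := Nat.prime_nth_prime _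

theorem pr_lt {m : ℕ} (hm : 1 ≤ m) : pr m < pr (m + 1) := by
  unfold pr
  exact Nat.nth_strictMono Nat.infinite_setOfPred_prime (by omega)

theorem pr_mono {m n : ℕ} (h : m ≤ n) : pr m ≤ pr n := by
  unfold pr
  exact (Nat.nth_strictMono Nat.infinite_setOfPred_prime).monotone (by omega)

theorem count_eq {m y : ℕ} (hm : 1 ≤ m) (h1 : pr m ≤ y) (h2 : y < pr (m + 1)) :
    Nat.primeCounting y = m := by
  unfold pr at h1 h2
  rw [Nat.add_sub_cancel] at h2
  have e1 : Nat.primeCounting y = Nat.count Nat.Prime (y + 1) := rfl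
  rw [e1]
  apply le_antisymm
  · calc Nat.count Nat.Prime (y + 1) ≤ Nat.count Nat.Prime (Nat.nth Nat.Prime m) :=
        Nat.count_monotone _ (by omega)
      _ = m := Nat.count_nth_of_infinite Nat.infinite_setOfPred_prime m
  · have h3 : Nat.count Nat.Prime (Nat.nth Nat.Prime (m - 1) + 1) = m - 1 + 1 :=
      Nat.count_nth_succ_of_infinite Nat.infinite_setOfPred_prime (m - 1)
    calc m = Nat.count Nat.Prime (Nat.nth Nat.Prime (m - 1) + 1) := by rw [h3]; omega
      _ ≤ _ := Nat.count_monotone _ (by omega)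

theorem multiples {m L : ℕ} (hm : 1 ≤ m) (hgap : pr m + L ≤ pr (m + 1)) {n : ℕ} (hn : 1 ≤ n)
    (hnL : n ≤ L) : ∃ k, 1 ≤ k ∧ k * n < pr (m + 1) ∧ Nat.primeCounting (k * n) = m := by
  have hp := (pr_prime m).two_le
  refine ⟨(pr m + n - 1) / n, ?_, ?_, ?_⟩
  · rw [Nat.one_le_div_iff (by omega)]
    omega
  · have h1 := Nat.div_mul_le_self (pr m + n - 1) n
    omega
  · apply count_eq hm
    · have h1 := Nat.div_add_mod' (pr m + n - 1) n
      have h2 := Nat.mod_lt (pr m + n - 1) (by omega : n > 0)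
      omega
    · have h1 := Nat.div_mul_le_self (pr m + n - 1) n
      omega

theorem card_eq_pi (N : ℕ) : ((Icc 1 N).filter Nat.Prime).card = Nat.primeCounting N := by
  rw [Nat.primeCounting, Nat.primeCounting', Nat.count_eq_card_filter_range]
  congr 1
  ext p
  simp only [mem_filter, mem_Icc, mem_range]
  constructor
  · rintro ⟨⟨h1, h2⟩, h3⟩
    exact ⟨by omega, h3⟩
  · rintro ⟨h1, h3⟩
    exact ⟨⟨h3.one_le, by omega⟩, h3⟩

theorem card_pr {M : ℕ} (hM : 1 ≤ M) : ((Icc 1 (pr M)).filter Nat.Prime).card = M := by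
  rw [card_eq_pi]
  exact count_eq hM le_rfl (pr_lt hM)

theorem le_pr {M : ℕ} (hM : 1 ≤ M) : M ≤ pr M := by
  have h := card_pr hM
  have h2 := card_filter_le (Icc 1 (pr M)) Nat.Prime
  rw [h, Nat.card_Icc] at h2
  omega

theorem tendsto_pr : Tendsto pr atTop atTop := by
  refine tendsto_atTop_mono' atTop ?_ tendsto_id
  filter_upwards [eventually_ge_atTop 1] with M hM
  exact le_pr hM

/-- few indices `m` with `p_(m+1) - p_m < L` -/
theorem bad_bound : ∃ K : ℝ, 0 < K ∧ ∀ᶠ M : ℕ in atTop, ∀ L : ℕ,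
    (((Icc 1 M).filter (fun m => ¬ pr m + L ≤ pr (m + 1))).card : ℝ) ≤
      K * L * (M / Real.log M) := by
  classical
  obtain ⟨C, hC, hpair⟩ := pair_bound
  obtain ⟨c, C', hc, hC', hch⟩ := cheb
  refine ⟨C * 2 / c, by positivity, ?_⟩
  filter_upwards [tendsto_pr.eventually hch, eventually_ge_atTop 3] with M hM hM3 L
  obtain ⟨S, hS⟩ : ∃ S : ℝ, S = ∑ h ∈ Ico 1 L, SS h := ⟨_, rfl⟩
  have hS0 : 0 ≤ S := by
    rw [hS]
    exact Finset.sum_nonneg fun h _ => zero_le_one.trans (one_le_SS h)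
  have hS2 : S ≤ 2 * L := by
    rw [hS]
    exact sum_SS L
  have hM1 : 1 ≤ M := by omega
  obtain ⟨N, hN⟩ : ∃ N : ℕ, N = pr M := ⟨_, rfl⟩
  rw [← hN] at hM
  have hcard : ((Icc 1 N).filter Nat.Prime).card = M := by rw [hN]; exact card_pr hM1
  rw [hcard] at hM
  have hNM : M ≤ N := by rw [hN]; exact le_pr hM1
  have hMr : (3 : ℝ) ≤ M := by exact_mod_cast hM3
  have hNMr : (M : ℝ) ≤ N := by exact_mod_cast hNM
  have hlogM : 0 < Real.log M := Real.log_pos (by linarith)
  have hlogN : Real.log M ≤ Real.log N := Real.log_le_log (by linarith) hNMr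
  have hlogN0 : 0 < Real.log N := hlogM.trans_le hlogN
  have h1 : (N : ℝ) / Real.log N ≤ M / c := by
    rw [le_div_iff₀ hc]
    calc (N : ℝ) / Real.log N * c = c * N / Real.log N := by ring
      _ ≤ M := hM.1
  obtain ⟨bad, hbad⟩ : ∃ bad : Finset ℕ, bad = (Icc 1 M).filter (fun m => ¬ pr m + L ≤ pr (m + 1)) :=
    ⟨_, rfl⟩
  rw [← hbad]
  have hinj : Set.InjOn pr (bad : Set ℕ) := by
    intro a ha b hb hab
    rw [hbad, mem_coe, mem_filter, mem_Icc] at ha hb
    have := (Nat.nth_strictMono Nat.infinite_setOfPred_prime).injective hab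
    omega
  have hsub : bad.image pr ⊆ (Ico 1 L).biUnion
      (fun h => (Icc 1 N).filter (fun p => p.Prime ∧ (p + h).Prime)) := by
    intro p hp
    obtain ⟨m, hm, rfl⟩ := mem_image.1 hp
    rw [hbad] at hm
    obtain ⟨hm1, hm2⟩ := mem_filter.1 hm
    rw [mem_Icc] at hm1
    have hlt := pr_lt hm1.1
    rw [mem_biUnion]
    refine ⟨pr (m + 1) - pr m, ?_, ?_⟩
    · rw [mem_Ico]
      omega
    · rw [mem_filter, mem_Icc]
      refine ⟨⟨(pr_prime m).one_le, by rw [hN]; exact pr_mono hm1.2⟩, pr_prime m, ?_⟩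
      rw [Nat.add_sub_cancel' hlt.le]
      exact pr_prime _
  have h2 : bad.card ≤ ∑ h ∈ Ico 1 L, ((Icc 1 N).filter (fun p => p.Prime ∧ (p + h).Prime)).card := by
    rw [← card_image_of_injOn hinj]
    exact (card_le_card hsub).trans card_biUnion_le
  have h3 : (bad.card : ℝ) ≤ ∑ h ∈ Ico 1 L,
      (((Icc 1 N).filter (fun p => p.Prime ∧ (p + h).Prime)).card : ℝ) := by exact_mod_cast h2
  calc (bad.card : ℝ) ≤ ∑ h ∈ Ico 1 L, C * SS h * N / (Real.log N) ^ 2 := by
        refine h3.trans (Finset.sum_le_sum fun h hh => ?_)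
        exact hpair h N (mem_Ico.1 hh).1 (by omega)
    _ = C * S * ((N : ℝ) / Real.log N / Real.log N) := by
        rw [hS, Finset.mul_sum, Finset.sum_mul]
        refine Finset.sum_congr rfl fun h _ => ?_
        rw [div_div, ← pow_two, mul_div_assoc]
    _ ≤ C * (2 * L) * (M / c / Real.log M) := by
        apply mul_le_mul (mul_le_mul_of_nonneg_left hS2 hC.le) _ (by positivity) (by positivity)
        exact div_le_div₀ (by positivity) h1 hlogM hlogN
    _ = C * 2 / c * L * (M / Real.log M) := by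
        field_simp

open scoped Classical in
/-- many products of two primes, one of them small -/
theorem semi {c : ℝ} (hc : 0 < c) {N₀ : ℕ}
    (hN₀ : ∀ N : ℕ, N₀ ≤ N → c * N / Real.log N ≤ (((Icc 1 N).filter Nat.Prime).card : ℝ))
    {A M : ℕ} (hM : (A + 1) * (N₀ + 4) ≤ M) (hbig : (A : ℝ) * A ≤ M / Real.log M) :
      (c / 2 * (∑ p ∈ (Icc 1 A).filter Nat.Prime, (1 : ℝ) / p) - 1) * (M / Real.log M) ≤
        (((Icc 1 M).filter (fun m => ∃ p q : ℕ, p.Prime ∧ q.Prime ∧ p < q ∧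
          m = p * q)).card : ℝ) := by
  have hM4 : N₀ + 4 ≤ M := le_trans (Nat.le_mul_of_pos_left _ (by omega)) hM
  have hMr : (4 : ℝ) ≤ M := by
    have : 4 ≤ M := by omega
    exact_mod_cast this
  have hlogM : 0 < Real.log M := Real.log_pos (by linarith)
  obtain ⟨P, hP⟩ : ∃ P : Finset ℕ, P = (Icc 1 A).filter Nat.Prime := ⟨_, rfl⟩
  rw [← hP]
  have hPcard : P.card ≤ A := by
    rw [hP]
    refine (card_filter_le _ _).trans ?_
    rw [Nat.card_Icc]
    omega
  have hcount : ∑ p ∈ P, (((Ioc A (M / p)).filter Nat.Prime).card) ≤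
      ((Icc 1 M).filter (fun m => ∃ p q : ℕ, p.Prime ∧ q.Prime ∧ p < q ∧
          m = p * q)).card := by
    rw [← Finset.card_sigma]
    refine Finset.card_le_card_of_injOn (fun x => x.1 * x.2) ?_ ?_
    · rintro ⟨p, q⟩ hx
      rw [mem_coe, mem_sigma, hP, mem_filter, mem_filter, mem_Icc, mem_Ioc] at hx
      obtain ⟨⟨⟨hp1, hpA⟩, hpp⟩, ⟨hAq, hq⟩, hqp⟩ := hx
      simp only at hp1 hpA hpp hAq hq hqp
      rw [mem_coe, mem_filter, mem_Icc]
      refine ⟨⟨?_, ?_⟩, p, q, hpp, hqp, by omega, rfl⟩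
      · show 1 ≤ p * q
        exact Nat.mul_pos hpp.pos hqp.pos
      · have := (Nat.le_div_iff_mul_le hpp.pos).1 hq
        show p * q ≤ M
        rw [mul_comm]
        exact this
    · rintro ⟨p, q⟩ hx ⟨p', q'⟩ hx' he
      rw [mem_coe, mem_sigma, hP, mem_filter, mem_filter, mem_Icc, mem_Ioc] at hx hx'
      obtain ⟨⟨⟨hp1, hpA⟩, hpp⟩, ⟨hAq, hq⟩, hqp⟩ := hx
      obtain ⟨⟨⟨hp1', hpA'⟩, hpp'⟩, ⟨hAq', hq'⟩, hqp'⟩ := hx'
      simp only at hp1 hpA hpp hAq hq hqp hp1' hpA' hpp' hAq' hq' hqp' he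
      have hpe : p = p' := by
        have hd : p ∣ p' * q' := by rw [← he]; exact Dvd.intro _ rfl
        rcases (Nat.Prime.dvd_mul hpp).1 hd with h | h
        · exact (Nat.prime_dvd_prime_iff_eq hpp hpp').1 h
        · have := (Nat.prime_dvd_prime_iff_eq hpp hqp').1 h
          omega
      subst hpe
      have hqe : q = q' := Nat.eq_of_mul_eq_mul_left hpp.pos he
      subst hqe
      rfl
  have hcount' : ∑ p ∈ P, (((Ioc A (M / p)).filter Nat.Prime).card : ℝ) ≤
      (((Icc 1 M).filter (fun m => ∃ p q : ℕ, p.Prime ∧ q.Prime ∧ p < q ∧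
          m = p * q)).card : ℝ) := by exact_mod_cast hcount
  refine le_trans ?_ hcount'
  have hterm : ∀ p ∈ P, c / 2 * (1 / (p : ℝ)) * (M / Real.log M) - A ≤
      (((Ioc A (M / p)).filter Nat.Prime).card : ℝ) := by
    intro p hp
    rw [hP, mem_filter, mem_Icc] at hp
    obtain ⟨⟨hp1, hpA⟩, hpp⟩ := hp
    obtain ⟨N, hN⟩ : ∃ N : ℕ, N = M / p := ⟨_, rfl⟩
    rw [← hN]
    have hNN : N₀ + 4 ≤ N := by
      rw [hN, Nat.le_div_iff_mul_le hpp.pos]
      calc (N₀ + 4) * p ≤ (N₀ + 4) * (A + 1) := Nat.mul_le_mul_left _ (by omega)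
        _ = (A + 1) * (N₀ + 4) := mul_comm _ _
        _ ≤ M := hM
    have hpi := hN₀ N (by omega)
    have hsplit : ((Icc 1 N).filter Nat.Prime).card ≤ A + ((Ioc A N).filter Nat.Prime).card := by
      have hs : (Icc 1 N).filter Nat.Prime ⊆ Icc 1 A ∪ (Ioc A N).filter Nat.Prime := by
        intro x hx
        rw [mem_filter, mem_Icc] at hx
        rw [mem_union, mem_filter, mem_Icc, mem_Ioc]
        rcases Nat.lt_or_ge A x with h | h
        · exact Or.inr ⟨⟨h, hx.1.2⟩, hx.2⟩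
        · exact Or.inl ⟨hx.1.1, h⟩
      refine (card_le_card hs).trans ((card_union_le _ _).trans ?_)
      rw [Nat.card_Icc]
      omega
    have hsplit' : (((Icc 1 N).filter Nat.Prime).card : ℝ) ≤ A + (((Ioc A N).filter Nat.Prime).card : ℝ) := by
      exact_mod_cast hsplit
    have hNr : (4 : ℝ) ≤ N := by
      have : 4 ≤ N := by omega
      exact_mod_cast this
    have hNM : (N : ℝ) ≤ M := by
      have : N ≤ M := by rw [hN]; exact Nat.div_le_self _ _
      exact_mod_cast this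
    have hlogN : 0 < Real.log N := Real.log_pos (by linarith)
    have hlogNM : Real.log N ≤ Real.log M := Real.log_le_log (by linarith) hNM
    have hpr : (0 : ℝ) < p := by exact_mod_cast hpp.pos
    have hMp : (M : ℝ) / (2 * p) ≤ N := by
      rw [div_le_iff₀ (by positivity)]
      have h5 : M < (N + 1) * p := by
        have h6 := Nat.div_add_mod' M p
        have h7 := Nat.mod_lt M hpp.pos
        rw [← hN] at h6
        rw [add_mul, one_mul]
        omega
      have h8 : (M : ℝ) < (N + 1) * p := by exact_mod_cast h5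
      nlinarith
    have h9 : c / 2 * (1 / (p : ℝ)) * (M / Real.log M) ≤ c * N / Real.log N := by
      calc c / 2 * (1 / (p : ℝ)) * (M / Real.log M) = c * (M / (2 * p)) / Real.log M := by
            field_simp
        _ ≤ c * N / Real.log N := by
            apply div_le_div₀ (by positivity) _ hlogN hlogNM
            exact mul_le_mul_of_nonneg_left hMp hc.le
    linarith
  calc (c / 2 * (∑ p ∈ P, (1 : ℝ) / p) - 1) * (M / Real.log M)
      = ∑ p ∈ P, c / 2 * (1 / (p : ℝ)) * (M / Real.log M) - M / Real.log M := by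
        rw [sub_mul, one_mul, Finset.mul_sum, Finset.sum_mul]
    _ ≤ ∑ p ∈ P, c / 2 * (1 / (p : ℝ)) * (M / Real.log M) - P.card * A := by
        have h10 : (P.card : ℝ) * A ≤ A * A := by
          have : (P.card : ℝ) ≤ A := by exact_mod_cast hPcard
          nlinarith [Nat.cast_nonneg (α := ℝ) A]
        linarith
    _ = ∑ p ∈ P, (c / 2 * (1 / (p : ℝ)) * (M / Real.log M) - A) := by
        rw [Finset.sum_sub_distrib, Finset.sum_const, nsmul_eq_mul]
    _ ≤ _ := Finset.sum_le_sum hterm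

open scoped Classical in
/-- the number of products of two different primes up to `M` is at least `c (M / log M) log log M` -/
theorem semi_count : ∃ c : ℝ, 0 < c ∧ ∀ᶠ M : ℕ in atTop,
    c * Real.log (Real.log M) * (M / Real.log M) ≤
      (((Icc 1 M).filter (fun m => ∃ p q : ℕ, p.Prime ∧ q.Prime ∧ p < q ∧
          m = p * q)).card : ℝ) := by
  obtain ⟨c, C', hc, hC', hch⟩ := cheb
  obtain ⟨N₀, hN₀⟩ := eventually_atTop.1 (hch.mono fun _ h => h.1)
  obtain ⟨C, hC⟩ := MPf55cd4.ms_sum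
  have t1 : Tendsto (fun M : ℕ => Real.log (Real.log (M : ℝ))) atTop atTop :=
    Real.tendsto_log_atTop.comp (Real.tendsto_log_atTop.comp tendsto_natCast_atTop_atTop)
  have t2 : Tendsto (fun M : ℕ => Real.log (M : ℝ)) atTop atTop :=
    Real.tendsto_log_atTop.comp tendsto_natCast_atTop_atTop
  refine ⟨c / 4, by positivity, ?_⟩
  filter_upwards [t1.eventually_ge_atTop (2 * (Real.log 8 + C + 2 / c)),
    t2.eventually_ge_atTop (8 * ((N₀ : ℝ) + 4)), eventually_ge_atTop 3] with M h1 h2 hM3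
  have hMr : (3 : ℝ) ≤ M := by exact_mod_cast hM3
  have hM0 : (0 : ℝ) < M := by linarith
  have hN0 : (0 : ℝ) ≤ N₀ := Nat.cast_nonneg _
  obtain ⟨t, ht⟩ : ∃ t : ℝ, t = Real.exp (Real.log M / 8) := ⟨_, rfl⟩
  have ht8 : t ^ 8 = M := by
    rw [ht, ← Real.exp_nat_mul]
    have : ((8 : ℕ) : ℝ) * (Real.log M / 8) = Real.log M := by push_cast; ring
    rw [this, Real.exp_log hM0]
  have hlogt : Real.log t = Real.log M / 8 := by rw [ht, Real.log_exp]
  have htN : (N₀ : ℝ) + 4 ≤ t := by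
    have h3 := Real.add_one_le_exp (Real.log M / 8)
    rw [← ht] at h3
    linarith
  have ht4 : 4 ≤ t := by linarith
  have ht0 : 0 < t := by linarith
  obtain ⟨A, hA⟩ : ∃ A : ℕ, A = ⌊t ^ 2⌋₊ := ⟨_, rfl⟩
  have hA1 : (A : ℝ) ≤ t ^ 2 := by rw [hA]; exact Nat.floor_le (by positivity)
  have hA2 : t ^ 2 < A + 1 := by rw [hA]; exact Nat.lt_floor_add_one _
  have hAt : t ≤ A := by nlinarith
  have hA0 : (0 : ℝ) ≤ A := Nat.cast_nonneg _
  have hlogM : 0 < Real.log M := Real.log_pos (by linarith)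
  have c1 : (A + 1) * (N₀ + 4) ≤ M := by
    have h3 : ((A : ℝ) + 1) * (N₀ + 4) ≤ M := by
      calc ((A : ℝ) + 1) * (N₀ + 4) ≤ (t ^ 2 + 1) * t :=
            mul_le_mul (by linarith) htN (by linarith) (by positivity)
        _ ≤ t ^ 8 := by
            have h4 : 1 ≤ t ^ 2 := by nlinarith
            have h5 : t ^ 2 ≤ t ^ 4 := by nlinarith
            have h6 : (t ^ 2 + 1) * t ≤ t ^ 4 := by nlinarith [mul_nonneg ht0.le (sq_nonneg t)]
            have h7 : t ^ 4 ≤ t ^ 8 := by
              have : 1 ≤ t ^ 4 := by linarith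
              nlinarith
            linarith
        _ = M := ht8
    exact_mod_cast h3
  have c2 : (A : ℝ) * A ≤ M / Real.log M := by
    rw [le_div_iff₀ hlogM]
    have h3 : Real.log M = 8 * Real.log t := by rw [hlogt]; ring
    have h4 : Real.log t ≤ t - 1 := Real.log_le_sub_one_of_pos ht0
    have h5 : Real.log M ≤ t ^ 4 := by
      have h6 : 64 ≤ t ^ 3 := by nlinarith [mul_self_nonneg (t - 4), sq_nonneg t]
      nlinarith
    calc (A : ℝ) * A * Real.log M ≤ t ^ 2 * t ^ 2 * t ^ 4 := by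
          apply mul_le_mul (mul_le_mul hA1 hA1 hA0 (by positivity)) h5 hlogM.le (by positivity)
      _ = M := by rw [← ht8]; ring
  refine le_trans ?_ (semi hc hN₀ c1 c2)
  apply mul_le_mul_of_nonneg_right _ (by positivity)
  have h3 := hC A (by linarith)
  rw [Nat.floor_natCast, abs_le] at h3
  have h4 : Real.log M / 8 ≤ Real.log A := by
    rw [← hlogt]
    exact Real.log_le_log ht0 hAt
  have h5 : Real.log (Real.log M) - Real.log 8 ≤ Real.log (Real.log A) := by
    rw [← Real.log_div hlogM.ne' (by norm_num)]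
    exact Real.log_le_log (by positivity) h4
  have h6 : Real.log (Real.log M) - Real.log 8 - C ≤
      ∑ p ∈ (Icc 1 A).filter Nat.Prime, (1 : ℝ) / p := by linarith [h3.1]
  have h7 : c / 2 * (Real.log (Real.log M) - Real.log 8 - C) ≤
      c / 2 * ∑ p ∈ (Icc 1 A).filter Nat.Prime, (1 : ℝ) / p :=
    mul_le_mul_of_nonneg_left h6 (by positivity)
  have h8 : c / 4 * (2 * (Real.log 8 + C + 2 / c)) ≤ c / 4 * Real.log (Real.log M) :=
    mul_le_mul_of_nonneg_left h1 (by positivity)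
  have h9 : c / 4 * (2 * (Real.log 8 + C + 2 / c)) = c / 2 * (Real.log 8 + C) + 1 := by
    field_simp
    ring
  linarith

end Pool.Agent.MPab8420
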