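import Pool.Agent.Lib_MP_a95293_rc.SvU
import Pool.Agent.Lib_MP_f55cd4.MertC

/-!
# Upper bound for the number of triples of primes with given differences
-/

set_option autoImplicit false

namespace Pool.Agent.MPab8420

open Finset Filter Pool.Agent.OmAP Pool.MP_a95293_nt.RC

/-- the product over the primes between `max 6 H` and `z` -/
theorem prod_three (H : ℕ) : ∃ D : ℝ, 0 < D ∧ ∀ z : ℕ, 3 ≤ z →
    ∏ p ∈ (PP 3 z).filter (fun p => H < p), (1 - (3 : ℝ) / p) ≤ D / (Real.log z) ^ 3 := by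
  classical
  obtain ⟨C, hC⟩ := MPf55cd4.ms_sum
  refine ⟨Real.exp (3 * (C + H + 6)), Real.exp_pos _, fun z hz => ?_⟩
  have hzr : (3 : ℝ) ≤ z := by exact_mod_cast hz
  have hlz : 0 < Real.log z := Real.log_pos (by linarith)
  have h1 := hC z (by linarith)
  rw [Nat.floor_natCast, abs_le] at h1
  have h2 : ∑ p ∈ (Icc 1 z).filter Nat.Prime, (1 : ℝ) / p ≤
      ∑ p ∈ (PP 3 z).filter (fun p => H < p), (1 : ℝ) / p + (H + 6) := by
    have hs : (Icc 1 z).filter Nat.Prime ⊆ (PP 3 z).filter (fun p => H < p) ∪ Icc 1 (H + 6) := by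
      intro p hp
      rw [mem_filter, mem_Icc] at hp
      rw [mem_union, mem_filter, mem_PP, mem_Icc]
      by_cases h : H + 6 < p
      · exact Or.inl ⟨⟨⟨by omega, hp.1.2⟩, hp.2⟩, by omega⟩
      · exact Or.inr ⟨hp.1.1, by omega⟩
    calc ∑ p ∈ (Icc 1 z).filter Nat.Prime, (1 : ℝ) / p
        ≤ ∑ p ∈ (PP 3 z).filter (fun p => H < p) ∪ Icc 1 (H + 6), (1 : ℝ) / p :=
          Finset.sum_le_sum_of_subset_of_nonneg hs fun _ _ _ => by positivity
      _ ≤ ∑ p ∈ (PP 3 z).filter (fun p => H < p), (1 : ℝ) / p + ∑ p ∈ Icc 1 (H + 6), (1 : ℝ) / p := by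
          rw [← Finset.sum_union_inter]
          have : 0 ≤ ∑ p ∈ (PP 3 z).filter (fun p => H < p) ∩ Icc 1 (H + 6), (1 : ℝ) / p :=
            Finset.sum_nonneg fun _ _ => by positivity
          linarith
      _ ≤ ∑ p ∈ (PP 3 z).filter (fun p => H < p), (1 : ℝ) / p + (H + 6) := by
          have h3 : ∑ p ∈ Icc 1 (H + 6), (1 : ℝ) / p ≤ ∑ p ∈ Icc 1 (H + 6), (1 : ℝ) := by
            refine Finset.sum_le_sum fun p hp => ?_
            rw [mem_Icc] at hp
            have : (1 : ℝ) ≤ p := by exact_mod_cast hp.1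
            rw [div_le_one (by linarith)]
            exact this
          rw [Finset.sum_const, Nat.card_Icc, nsmul_eq_mul, mul_one] at h3
          have h4 : ((H + 6 + 1 - 1 : ℕ) : ℝ) = H + 6 := by
            rw [Nat.add_sub_cancel]
            push_cast
            ring
          rw [h4] at h3
          linarith
  have h5 : ∏ p ∈ (PP 3 z).filter (fun p => H < p), (1 - (3 : ℝ) / p) ≤
      Real.exp (-(3 * ∑ p ∈ (PP 3 z).filter (fun p => H < p), (1 : ℝ) / p)) := by
    rw [Finset.mul_sum, ← Finset.sum_neg_distrib, Real.exp_sum]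
    refine Finset.prod_le_prod (fun p hp => ?_) fun p hp => ?_
    · rw [mem_filter, mem_PP] at hp
      have h6 : (6 : ℝ) < p := by exact_mod_cast hp.1.1.1
      rw [sub_nonneg, div_le_one (by linarith)]
      linarith
    · have h7 := Real.add_one_le_exp (-(3 * ((1 : ℝ) / p)))
      have h8 : (3 : ℝ) / p = 3 * (1 / p) := by ring
      rw [h8]
      linarith
  refine h5.trans ?_
  have h9 : Real.log (Real.log z) - C - (H + 6) ≤
      ∑ p ∈ (PP 3 z).filter (fun p => H < p), (1 : ℝ) / p := by linarith [h1.1]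
  calc Real.exp (-(3 * ∑ p ∈ (PP 3 z).filter (fun p => H < p), (1 : ℝ) / p))
      ≤ Real.exp (3 * (C + H + 6) - 3 * Real.log (Real.log z)) := by
        apply Real.exp_le_exp.2
        linarith
    _ = Real.exp (3 * (C + H + 6)) / (Real.log z) ^ 3 := by
        rw [Real.exp_sub]
        congr 1
        have h10 : (3 : ℝ) * Real.log (Real.log z) = ((3 : ℕ) : ℝ) * Real.log (Real.log z) := by
          norm_num
        rw [h10, Real.exp_nat_mul, Real.exp_log hlz]

/-- the residues to be avoided -/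
def Om3 (a b p : ℕ) : Finset ℕ := if b < p then {0, p - a, p - b} else ∅

theorem triple (a b : ℕ) (ha : 0 < a) (hab : a < b) : ∃ D : ℝ, 0 < D ∧ ∀ᶠ N : ℕ in atTop,
    (((Icc 1 N).filter (fun p => p.Prime ∧ (p + a).Prime ∧ (p + b).Prime)).card : ℝ) ≤
      D * (N / (Real.log N) ^ 3) := by
  classical
  obtain ⟨C0, hC0⟩ := sieve_count_up 3
  obtain ⟨D, hD, hprod⟩ := prod_three b
  obtain ⟨K, hK⟩ : ∃ K : ℕ, K = C0 + 2 := ⟨_, rfl⟩
  have hKr : (2 : ℝ) ≤ K := by
    have : 2 ≤ K := by omega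
    exact_mod_cast this
  refine ⟨1 + 8 * D * (2 * K) ^ 3, by positivity, ?_⟩
  have e1 := (isLittleO_log_rpow_atTop (r := 1 / 6) (by norm_num)).bound (c := 1) one_pos
  have e2 := (tendsto_natCast_atTop_atTop (R := ℝ)).eventually e1
  have t2 : Tendsto (fun M : ℕ => Real.log (M : ℝ)) atTop atTop :=
    Real.tendsto_log_atTop.comp tendsto_natCast_atTop_atTop
  filter_upwards [e2, t2.eventually_ge_atTop (4 * K), eventually_ge_atTop 3] with N h1 h2 hN3
  have hNr : (3 : ℝ) ≤ N := by exact_mod_cast hN3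
  have hN0 : (0 : ℝ) < N := by linarith
  have hlN : 0 < Real.log N := Real.log_pos (by linarith)
  rw [one_mul, Real.norm_eq_abs, abs_of_pos hlN, Real.norm_eq_abs,
    abs_of_nonneg (Real.rpow_nonneg hN0.le _)] at h1
  -- the choice of z
  obtain ⟨y, hy⟩ : ∃ y : ℝ, y = Real.exp (Real.log N / (2 * K)) := ⟨_, rfl⟩
  have hy3 : 3 ≤ y := by
    have h3 := Real.add_one_le_exp (Real.log N / (2 * K))
    have h4 : 2 ≤ Real.log N / (2 * K) := by
      rw [le_div_iff₀ (by positivity)]
      linarith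
    rw [hy]
    linarith
  obtain ⟨z, hz⟩ : ∃ z : ℕ, z = ⌊y ^ 2⌋₊ := ⟨_, rfl⟩
  have hz1 : (z : ℝ) ≤ y ^ 2 := by rw [hz]; exact Nat.floor_le (by positivity)
  have hz2 : y ^ 2 < z + 1 := by rw [hz]; exact Nat.lt_floor_add_one _
  have hzy : y ≤ z := by nlinarith
  have hz3 : 3 ≤ z := by
    have : (3 : ℝ) ≤ z := by linarith
    exact_mod_cast this
  have hlz : Real.log N / (2 * K) ≤ Real.log z := by
    have : Real.log y = Real.log N / (2 * K) := by rw [hy, Real.log_exp]
    rw [← this]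
    exact Real.log_le_log (by linarith) hzy
  have hyK : (y ^ 2) ^ K = N := by
    rw [← pow_mul, hy, ← Real.exp_nat_mul]
    have : ((2 * K : ℕ) : ℝ) * (Real.log N / (2 * K)) = Real.log N := by
      push_cast
      field_simp
    rw [this, Real.exp_log hN0]
  have hzK : (z : ℝ) ^ K ≤ N := by
    rw [← hyK]
    exact pow_le_pow_left₀ (Nat.cast_nonneg _) hz1 K
  have hz0 : (1 : ℝ) ≤ z := by linarith
  have hzC : z ^ C0 ≤ N + 1 := by
    have h5 : (z : ℝ) ^ C0 ≤ (z : ℝ) ^ K := pow_le_pow_right₀ hz0 (by omega)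
    have h6 : (z : ℝ) ^ C0 ≤ N := h5.trans hzK
    have h7 : z ^ C0 ≤ N := by exact_mod_cast h6
    omega
  have hzz : (z : ℝ) * z ≤ N := by
    calc (z : ℝ) * z = (z : ℝ) ^ 2 := by ring
      _ ≤ (z : ℝ) ^ K := pow_le_pow_right₀ hz0 (by omega)
      _ ≤ N := hzK
  -- the sieve
  have hOm : ∀ p ∈ PP 3 z, (Om3 a b p).card ≤ 3 ∧ Om3 a b p ⊆ range p := by
    intro p hp
    rw [mem_PP] at hp
    unfold Om3
    split_ifs with h
    · refine ⟨Finset.card_le_three, ?_⟩
      intro x hx
      simp only [mem_insert, mem_singleton] at hx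
      rw [mem_range]
      omega
    · simp
  have hs := hC0 z (N + 1) (by omega) hzC (Om3 a b) hOm
  have hcard3 : ∀ p ∈ PP 3 z, b < p → (Om3 a b p).card = 3 := by
    intro p hp h
    unfold Om3
    rw [if_pos h]
    rw [Finset.card_eq_three]
    exact ⟨0, p - a, p - b, by omega, by omega, by omega, rfl⟩
  have hprodle : ∏ p ∈ PP 3 z, (1 - ((Om3 a b p).card : ℝ) / p) ≤ D / (Real.log z) ^ 3 := by
    refine le_trans (le_of_eq ?_) (hprod z hz3)
    rw [Finset.prod_filter]
    refine Finset.prod_congr rfl fun p hp => ?_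
    split_ifs with h
    · rw [hcard3 p hp h]
      norm_num
    · unfold Om3
      rw [if_neg h]
      simp
  have hsub : (Icc 1 N).filter (fun p => p.Prime ∧ (p + a).Prime ∧ (p + b).Prime) ⊆
      Icc 1 z ∪ (range (N + 1)).filter fun t => ∀ p ∈ PP 3 z, t % p ∉ Om3 a b p := by
    intro t ht
    rw [mem_filter, mem_Icc] at ht
    obtain ⟨⟨ht1, htN⟩, hp0, hpa, hpb⟩ := ht
    rw [mem_union, mem_Icc, mem_filter, mem_range]
    by_cases htz : t ≤ z
    · exact Or.inl ⟨ht1, htz⟩
    · refine Or.inr ⟨by omega, fun p hp hmem => ?_⟩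
      rw [mem_PP] at hp
      unfold Om3 at hmem
      split_ifs at hmem with h
      · simp only [mem_insert, mem_singleton] at hmem
        have hdm := Nat.div_add_mod t p
        have key : ∀ s : ℕ, s ≤ b → s ≤ p → (t + s).Prime → t % p = p - s ∨ (s = 0 ∧ t % p = 0) →
            False := by
          intro s hsb hsp hprs hor
          have hdvd : p ∣ t + s := by
            rcases hor with h3 | ⟨h3, h4⟩
            · refine ⟨t / p + 1, ?_⟩
              rw [mul_add, mul_one]
              omega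
            · subst h3
              rw [add_zero]
              exact Nat.dvd_of_mod_eq_zero h4
          rcases (Nat.dvd_prime hprs).1 hdvd with h5 | h5
          · exact hp.2.one_lt.ne' h5
          · omega
        rcases hmem with h3 | h3 | h3
        · exact key 0 (by omega) (by omega) (by rwa [add_zero]) (Or.inr ⟨rfl, h3⟩)
        · exact key a (by omega) (by omega) hpa (Or.inl h3)
        · exact key b le_rfl (by omega) hpb (Or.inl h3)
      · simp at hmem
  have hcount : (((Icc 1 N).filter (fun p => p.Prime ∧ (p + a).Prime ∧ (p + b).Prime)).card : ℝ) ≤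
      z + (((range (N + 1)).filter fun t => ∀ p ∈ PP 3 z, t % p ∉ Om3 a b p).card : ℝ) := by
    have h8 := (card_le_card hsub).trans (card_union_le _ _)
    rw [Nat.card_Icc, Nat.add_sub_cancel] at h8
    exact_mod_cast h8
  have hlz0 : 0 < Real.log N / (2 * K) := by positivity
  have hbound : (((range (N + 1)).filter fun t => ∀ p ∈ PP 3 z, t % p ∉ Om3 a b p).card : ℝ) ≤
      8 * D * (2 * K) ^ 3 * (N / (Real.log N) ^ 3) := by
    calc (((range (N + 1)).filter fun t => ∀ p ∈ PP 3 z, t % p ∉ Om3 a b p).card : ℝ)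
        ≤ 4 * ((N + 1 : ℕ) : ℝ) * ∏ p ∈ PP 3 z, (1 - ((Om3 a b p).card : ℝ) / p) := hs
      _ ≤ 4 * (2 * N) * (D / (Real.log N / (2 * K)) ^ 3) := by
          apply mul_le_mul _ _ _ (by positivity)
          · push_cast
            linarith
          · refine hprodle.trans ?_
            exact div_le_div_of_nonneg_left hD.le (by positivity)
              (pow_le_pow_left₀ hlz0.le hlz 3)
          · refine Finset.prod_nonneg fun p hp => ?_
            have h9 := (hOm p hp).1
            rw [mem_PP] at hp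
            have h10 : (6 : ℝ) < p := by exact_mod_cast hp.1.1
            have h11 : ((Om3 a b p).card : ℝ) ≤ 3 := by exact_mod_cast h9
            rw [sub_nonneg, div_le_one (by linarith)]
            linarith
      _ = 8 * D * (2 * K) ^ 3 * (N / (Real.log N) ^ 3) := by
          field_simp
          ring
  have hzle : (z : ℝ) ≤ N / (Real.log N) ^ 3 := by
    have h12 : (Real.log N) ^ 3 ≤ Real.sqrt N := by
      calc (Real.log N) ^ 3 ≤ ((N : ℝ) ^ (1 / 6 : ℝ)) ^ 3 := pow_le_pow_left₀ hlN.le h1 3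
        _ = Real.sqrt N := by
            rw [← Real.rpow_natCast, ← Real.rpow_mul hN0.le, Real.sqrt_eq_rpow]
            norm_num
    have h13 : (z : ℝ) ≤ Real.sqrt N := Real.le_sqrt_of_sq_le (by rw [pow_two]; exact hzz)
    rw [le_div_iff₀ (by positivity)]
    calc (z : ℝ) * (Real.log N) ^ 3 ≤ Real.sqrt N * Real.sqrt N :=
          mul_le_mul h13 h12 (by positivity) (Real.sqrt_nonneg _)
      _ = N := Real.mul_self_sqrt hN0.le
  calc _ ≤ _ := hcount
    _ ≤ N / (Real.log N) ^ 3 + 8 * D * (2 * K) ^ 3 * (N / (Real.log N) ^ 3) := add_le_add hzle hbound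
    _ = _ := by ring

end Pool.Agent.MPab8420
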